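import Pool.Agent.N728.QG.Def
import Pool.Agent.N756.QL.StaS

set_option autoImplicit false

/-! Project QG (helper728), part DIA: the diagonal (helper769). -/

namespace Pool.Agent.N769.QG

open Finset Pool.Agent.N728.QL Pool.Agent.N728.QG

theorem t_DIA (hRNG : S_RNG) : S_DIA := by
  intro C0 k D K hC0 hD hK
  obtain ⟨kR, BR, hR⟩ := hRNG D K hD hK
  have hKr : (1 : ℝ) ≤ K := by exact_mod_cast hK
  refine ⟨1 + C0 * K, ?_, k + kR, BR + K + 2, ?_⟩
  · have h2 : 0 ≤ C0 * K := by positivity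
    linarith
  intro B hB W hW hU1 T w y M0 ρ hT1 hT2 hw hwy hy hM0 hM0B hρ hρ2
  have hB1 : 1 ≤ B := by omega
  have hT0 : 1 ≤ T := by
    by_contra hcon
    have h0 : T = 0 := by omega
    rw [h0, zero_pow (by omega)] at hT1
    omega
  have hy1 : 1 ≤ y := by omega
  have hyk : y ^ k ≤ B := (Nat.pow_le_pow_right hy1 (by omega)).trans hy
  have hM0kR : M0 ^ kR ≤ B := (Nat.pow_le_pow_right hM0 (by omega)).trans hM0B
  have hM0k : M0 ^ k ≤ B := (Nat.pow_le_pow_right hM0 (by omega)).trans hM0B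
  have hV0 := VW_pos w y
  have hAA : ∀ M ∈ (PP w y).divisors.filter (fun M => M ≤ M0), ∀ j ∈ Wn ρ M,
      AA W w y ρ T (K * B) M j ≤ C0 * (K * ((T : ℝ) * B)) * (VW w y ^ 2 * (1 / (Nat.totient M : ℝ))) := by
    intro M hM j hj
    rw [mem_filter, Nat.mem_divisors] at hM
    have hMpos : 1 ≤ M := Nat.pos_of_dvd_of_pos hM.1.1 (PP_pos w y)
    obtain ⟨r1, r2, -, r3, r4, r5, -⟩ := hR B (by omega) T M0 M j ρ hT1 hT2 hM0kR hMpos hM.2 hρ hρ2 hj
    unfold AA
    set X := ⌊(T : ℝ) / ρ ^ (j + 1)⌋₊ with hX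
    set Y := ⌊((K * B : ℕ) : ℝ) * ρ ^ (j + 1) / M⌋₊ with hY
    have hX1 : 1 ≤ X := by
      by_contra hcon
      have h0 : X = 0 := by omega
      rw [h0, zero_pow (by omega)] at r1
      omega
    have hY1 : 1 ≤ Y := by
      by_contra hcon
      have h0 : Y = 0 := by omega
      rw [h0, zero_pow (by omega)] at r3
      omega
    have hMk : M ^ k ≤ B := (Nat.pow_le_pow_left hM.2 k).trans hM0k
    have h1 := hU1 w y M X 0 Y (by omega) hwy hyk hMk hM.1.1
      (r1.trans (Nat.pow_le_pow_right hX1 (by omega)))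
      ((r2.trans hT2).trans (Nat.pow_le_pow_right hB1 (by omega)))
      (Nat.zero_le _)
      (by
        rw [Nat.sub_zero]
        exact r3.trans (Nat.pow_le_pow_right hY1 (by omega)))
      (r4.trans (Nat.pow_le_pow_right hB1 (by omega)))
    have h2 : ∑ x ∈ Icc 1 X, ∑ t ∈ Icc 1 Y, rg w y x * rg w y t * W (M * x * t) =
        ∑ x ∈ Icc 1 X, ∑ t ∈ Ioc 0 Y, rg w y x * rg w y t * W (M * x * t) := by
      refine sum_congr rfl fun x _ => ?_
      apply sum_congr _ fun _ _ => rfl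
      ext t
      rw [mem_Icc, mem_Ioc]
      omega
    rw [h2]
    refine h1.trans ?_
    have hMr : (0 : ℝ) < M := by exact_mod_cast hMpos
    have hφM : (0 : ℝ) < Nat.totient M := by exact_mod_cast Nat.totient_pos.2 hMpos
    have h3 : (X : ℝ) * ((Y : ℝ) - ((0 : ℕ) : ℝ)) ≤ T * (K * B) / M := by
      push_cast
      rw [sub_zero]
      exact r5
    calc C0 * ((M : ℝ) / Nat.totient M) * VW w y ^ 2 * ((X : ℝ) * ((Y : ℝ) - ((0 : ℕ) : ℝ)))
        ≤ C0 * ((M : ℝ) / Nat.totient M) * VW w y ^ 2 * (T * (K * B) / M) :=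
          mul_le_mul_of_nonneg_left h3 (by positivity)
      _ = C0 * (K * ((T : ℝ) * B)) * (VW w y ^ 2 * (1 / (Nat.totient M : ℝ))) := by
          field_simp
  have hs := Pool.Agent.N756.QL.sum2 w y
  calc ∑ M ∈ (PP w y).divisors.filter (fun M => M ≤ M0), ∑ j ∈ Wn ρ M, ∑ _m ∈ Dv ρ M j, AA W w y ρ T (K * B) M j
      ≤ ∑ M ∈ (PP w y).divisors.filter (fun M => M ≤ M0), ∑ j ∈ Wn ρ M,
          ((Dv ρ M j).card : ℝ) * (C0 * (K * ((T : ℝ) * B)) * (VW w y ^ 2 * (1 / (Nat.totient M : ℝ)))) := by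
        refine sum_le_sum fun M hM => sum_le_sum fun j hj => ?_
        rw [sum_const, nsmul_eq_mul]
        exact mul_le_mul_of_nonneg_left (hAA M hM j hj) (by positivity)
    _ = ∑ M ∈ (PP w y).divisors.filter (fun M => M ≤ M0),
          (M.divisors.card : ℝ) * (C0 * (K * ((T : ℝ) * B)) * (VW w y ^ 2 * (1 / (Nat.totient M : ℝ)))) := by
        refine sum_congr rfl fun M _ => ?_
        rw [← sum_mul, Pool.Agent.N756.QL.sum_card_Dv_r]
    _ ≤ ∑ M ∈ (PP w y).divisors,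
          (M.divisors.card : ℝ) * (C0 * (K * ((T : ℝ) * B)) * (VW w y ^ 2 * (1 / (Nat.totient M : ℝ)))) := by
        apply sum_le_sum_of_subset_of_nonneg (filter_subset _ _)
        intro M _ _
        positivity
    _ = C0 * (K * ((T : ℝ) * B)) *
          (VW w y ^ 2 * ∑ M ∈ (PP w y).divisors, (M.divisors.card : ℝ) / (Nat.totient M : ℝ)) := by
        rw [mul_sum, mul_sum]
        refine sum_congr rfl fun M _ => ?_
        ring
    _ ≤ C0 * (K * ((T : ℝ) * B)) * 1 := mul_le_mul_of_nonneg_left hs (by positivity)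
    _ = C0 * K * ((T : ℝ) * B) := by ring
    _ ≤ (1 + C0 * K) * ((T : ℝ) * B) := by
        apply mul_le_mul_of_nonneg_right _ (by positivity)
        linarith

end Pool.Agent.N769.QG
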