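import Pool.Agent.N728.QG.Def
import Pool.Agent.N99.QL.QB

set_option autoImplicit false

/-! Project QG (helper728), part QB: the off-diagonal terms for functions with small integrals and support of any fixed
length (helper769). The argument of `Pool.Agent.N99.QL.QB` (helper99), with an abstract kernel. -/

namespace Pool.Agent.N769.QG

open Finset MeasureTheory Pool.Agent.N728.QL Pool.Agent.N99.QL

/-! ## The autocorrelation -/

/-- the hypotheses on `g` -/
structure GS (g : ℝ → ℝ) (L s0 S δ : ℝ) : Prop where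
  S1 : 0 ≤ S
  L1 : 1 ≤ L
  bd : ∀ s, |g s| ≤ 2
  lip : ∀ s s', |g s - g s'| ≤ L * |s - s'|
  supp : ∀ s, ¬ (s0 ≤ s ∧ s ≤ s0 + S) → g s = 0
  int : ∀ s1 s2 : ℝ, s1 ≤ s2 → |∫ s in s1..s2, g s| ≤ δ

namespace GS

variable {g : ℝ → ℝ} {L s0 S δ : ℝ} (h : GS g L s0 S δ)
include h

lemma cont : Continuous g := by
  have hL : 0 ≤ L := by linarith [h.L1]
  have : LipschitzWith ⟨L, hL⟩ g := LipschitzWith.of_dist_le_mul fun x y => by
    rw [Real.dist_eq, Real.dist_eq]
    exact h.lip x y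
  exact this.continuous

lemma eq_int (f : ℝ → ℝ) : ∫ s : ℝ, g s * f s = ∫ s in s0..(s0 + S), g s * f s := by
  rw [intervalIntegral.integral_of_le (by linarith [h.S1]), ← integral_Icc_eq_integral_Ioc]
  symm
  refine setIntegral_eq_integral_of_forall_compl_eq_zero fun s hs => ?_
  rw [h.supp s (fun h1 => hs ⟨h1.1, h1.2⟩), zero_mul]

lemma kk_bd (τ : ℝ) : |kk g τ| ≤ 4 * S := by
  unfold kk
  rw [h.eq_int]
  have h1 : ∀ x ∈ Set.uIoc s0 (s0 + S), ‖g x * g (x + τ)‖ ≤ 4 := by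
    intro x _
    rw [norm_mul, Real.norm_eq_abs, Real.norm_eq_abs]
    have := h.bd x
    have := h.bd (x + τ)
    nlinarith [abs_nonneg (g x), abs_nonneg (g (x + τ))]
  have h2 := intervalIntegral.norm_integral_le_of_norm_le_const h1
  rw [Real.norm_eq_abs] at h2
  refine h2.trans ?_
  rw [show s0 + S - s0 = S by ring, abs_of_nonneg h.S1]

lemma kk_lip (τ τ' : ℝ) : |kk g τ - kk g τ'| ≤ 2 * S * L * |τ - τ'| := by
  unfold kk
  rw [h.eq_int, h.eq_int]
  have hc := h.cont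
  have i1 : ∀ t : ℝ, IntervalIntegrable (fun s => g s * g (s + t)) volume s0 (s0 + S) :=
    fun t => (hc.mul (hc.comp (continuous_id.add continuous_const))).intervalIntegrable _ _
  rw [← intervalIntegral.integral_sub (i1 τ) (i1 τ')]
  have h1 : ∀ x ∈ Set.uIoc s0 (s0 + S), ‖g x * g (x + τ) - g x * g (x + τ')‖ ≤
      2 * L * |τ - τ'| := by
    intro x _
    rw [← mul_sub, norm_mul, Real.norm_eq_abs, Real.norm_eq_abs]
    have e1 := h.bd x
    have e2 := h.lip (x + τ) (x + τ')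
    rw [show x + τ - (x + τ') = τ - τ' by ring] at e2
    calc |g x| * |g (x + τ) - g (x + τ')| ≤ 2 * (L * |τ - τ'|) :=
          mul_le_mul e1 e2 (abs_nonneg _) (by norm_num)
      _ = 2 * L * |τ - τ'| := by ring
  have h2 := intervalIntegral.norm_integral_le_of_norm_le_const h1
  rw [Real.norm_eq_abs] at h2
  refine h2.trans (le_of_eq ?_)
  rw [show s0 + S - s0 = S by ring, abs_of_nonneg h.S1]
  ring

lemma kk_cont : Continuous (kk g) := by
  have hL : 0 ≤ 2 * S * L := mul_nonneg (mul_nonneg (by norm_num) h.S1) (by linarith [h.L1])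
  have : LipschitzWith ⟨2 * S * L, hL⟩ (kk g) := LipschitzWith.of_dist_le_mul fun x y => by
    rw [Real.dist_eq, Real.dist_eq]
    exact h.kk_lip x y
  exact this.continuous

lemma kk_int {a b : ℝ} (hab : a ≤ b) : |∫ t in a..b, kk g t| ≤ 2 * S * δ := by
  have hc := h.cont
  have e1 : ∀ t, kk g t = ∫ s in s0..(s0 + S), g s * g (s + t) := fun t => by
    unfold kk
    rw [h.eq_int]
  simp_rw [e1]
  rw [intervalIntegral_intervalIntegral_swap (F := fun t s => g s * g (s + t))]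
  · have h1 : ∀ x ∈ Set.uIoc s0 (s0 + S), ‖∫ t in a..b, g x * g (x + t)‖ ≤ 2 * δ := by
      intro x _
      rw [intervalIntegral.integral_const_mul, norm_mul, Real.norm_eq_abs, Real.norm_eq_abs,
        intervalIntegral.integral_comp_add_left]
      exact mul_le_mul (h.bd x) (h.int _ _ (by linarith)) (abs_nonneg _) (by norm_num)
    have h2 := intervalIntegral.norm_integral_le_of_norm_le_const h1
    rw [Real.norm_eq_abs] at h2
    refine h2.trans (le_of_eq ?_)
    rw [show s0 + S - s0 = S by ring, abs_of_nonneg h.S1]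
    ring
  · have hF : Continuous (Function.uncurry fun t s : ℝ => g s * g (s + t)) :=
      (hc.comp continuous_snd).mul (hc.comp (continuous_snd.add continuous_fst))
    have hK : IsCompact (Set.uIcc a b ×ˢ Set.uIcc s0 (s0 + S)) := isCompact_uIcc.prod isCompact_uIcc
    refine (hF.continuousOn.integrableOn_compact hK).mono_set ?_
    exact Set.prod_mono Set.uIoc_subset_uIcc Set.uIoc_subset_uIcc

lemma hcs : HasCompactSupport g := by
  refine HasCompactSupport.of_support_subset_isCompact (isCompact_Icc (a := s0) (b := s0 + S)) ?_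
  intro s hs
  by_contra h1
  exact hs (h.supp s fun h2 => h1 ⟨h2.1, h2.2⟩)

lemma sq_int (D : Finset ℕ) : ∫ s : ℝ, (∑ m ∈ D, g (s - Real.log m)) ^ 2 =
    ∑ m ∈ D, ∑ m' ∈ D, kk g (Real.log m - Real.log m') := by
  have hc := h.cont
  have e1 : ∀ s : ℝ, (∑ m ∈ D, g (s - Real.log m)) ^ 2 =
      ∑ m ∈ D, ∑ m' ∈ D, g (s - Real.log m) * g (s - Real.log m') := by
    intro s
    rw [sq, Finset.sum_mul_sum]
  simp_rw [e1]
  have i1 : ∀ a b : ℝ, Integrable (fun s => g (s - a) * g (s - b)) := by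
    intro a b
    have c1 : Continuous (fun s => g (s - a) * g (s - b)) :=
      (hc.comp (continuous_id.sub continuous_const)).mul (hc.comp (continuous_id.sub continuous_const))
    refine c1.integrable_of_hasCompactSupport ?_
    refine HasCompactSupport.of_support_subset_isCompact
      (isCompact_Icc (a := s0 + a) (b := s0 + S + a)) ?_
    intro s hs
    by_contra h1
    refine hs ?_
    change g (s - a) * g (s - b) = 0
    rw [h.supp (s - a) fun h2 => h1 ⟨by linarith [h2.1], by linarith [h2.2]⟩, zero_mul]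
  rw [integral_finsetSum _ fun m _ => integrable_finsetSum _ fun m' _ => i1 _ _]
  refine Finset.sum_congr rfl fun m _ => ?_
  rw [integral_finsetSum _ fun m' _ => i1 _ _]
  refine Finset.sum_congr rfl fun m' _ => ?_
  unfold kk
  have e2 := integral_sub_right_eq_self (μ := (volume : Measure ℝ))
    (fun s => g s * g (s + (Real.log m - Real.log m'))) (Real.log m)
  rw [← e2]
  refine integral_congr_ae (Filter.Eventually.of_forall fun s => ?_)
  simp only
  rw [show s - Real.log m + (Real.log m - Real.log m') = s - Real.log m' by ring]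

/-- the integral against a decreasing weight -/
lemma kk_wt {c u a b : ℝ} (hab : a ≤ b) (hu : 0 < u + a) (hδ : 0 ≤ δ) :
    |∫ t in a..b, kk g (c - t) / (u + t)| ≤ 2 * S * δ / (u + a) := by
  have hkc := h.kk_cont
  have hkc' : Continuous fun t => kk g (c - t) := hkc.comp (continuous_const.sub continuous_id)
  set F : ℝ → ℝ := fun t => ∫ s in a..t, kk g (c - s) with hF
  have hFd : ∀ t, HasDerivAt F (kk g (c - t)) t := fun t =>
    intervalIntegral.integral_hasDerivAt_right (hkc'.intervalIntegrable _ _)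
      hkc'.stronglyMeasurable.stronglyMeasurableAtFilter hkc'.continuousAt
  have hFb : ∀ t, a ≤ t → |F t| ≤ 2 * S * δ := by
    intro t ht
    simp only [hF]
    rw [intervalIntegral.integral_comp_sub_left]
    exact h.kk_int (by linarith)
  have hpos : ∀ t ∈ Set.uIcc a b, 0 < u + t := by
    intro t ht
    rw [Set.uIcc_of_le hab] at ht
    linarith [ht.1]
  have hud : ∀ t ∈ Set.uIcc a b, HasDerivAt (fun t => (u + t)⁻¹) (-1 / (u + t) ^ 2) t := by
    intro t ht
    have h1 : HasDerivAt (fun t => u + t) 1 t := (hasDerivAt_id t).const_add u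
    exact h1.inv (hpos t ht).ne'
  have hcu : ContinuousOn (fun t => -1 / (u + t) ^ 2) (Set.uIcc a b) := by
    refine ContinuousOn.div continuousOn_const (by fun_prop) fun t ht => ?_
    have := hpos t ht
    positivity
  have h1 := intervalIntegral.integral_mul_deriv_eq_deriv_mul (a := a) (b := b)
    (u := fun t => (u + t)⁻¹) (v := F) (u' := fun t => -1 / (u + t) ^ 2) (v' := fun t => kk g (c - t))
    hud (fun t _ => hFd t) hcu.intervalIntegrable (hkc'.intervalIntegrable _ _)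
  have h2 : ∫ t in a..b, kk g (c - t) / (u + t) = ∫ t in a..b, (u + t)⁻¹ * kk g (c - t) :=
    intervalIntegral.integral_congr fun t _ => by rw [div_eq_mul_inv, mul_comm]
  have hFa : F a = 0 := by simp [hF]
  rw [h2, h1, hFa, mul_zero, sub_zero]
  have hb : 0 < u + b := by linarith
  -- the remaining integral
  have hint : ∫ t in a..b, 1 / (u + t) ^ 2 = (u + a)⁻¹ - (u + b)⁻¹ := by
    have h3 : ∀ t ∈ Set.uIcc a b, HasDerivAt (fun t => -(u + t)⁻¹) (1 / (u + t) ^ 2) t := by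
      intro t ht
      have h5 := (hud t ht).fun_neg
      rwa [show -(-1 / (u + t) ^ 2) = 1 / (u + t) ^ 2 by ring] at h5
    rw [intervalIntegral.integral_eq_sub_of_hasDerivAt h3]
    · ring
    · refine ContinuousOn.intervalIntegrable ?_
      refine ContinuousOn.div continuousOn_const (by fun_prop) fun t ht => ?_
      have := hpos t ht
      positivity
  have h4 : |∫ t in a..b, -1 / (u + t) ^ 2 * F t| ≤ 2 * S * δ * ((u + a)⁻¹ - (u + b)⁻¹) := by
    rw [← hint, ← intervalIntegral.integral_const_mul, ← Real.norm_eq_abs]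
    refine intervalIntegral.norm_integral_le_of_norm_le hab ?_ ?_
    · refine Filter.Eventually.of_forall fun t ht => ?_
      have h5 : 0 < u + t := by linarith [ht.1]
      rw [norm_mul, Real.norm_eq_abs, Real.norm_eq_abs, abs_div, abs_neg, abs_one,
        abs_of_pos (by positivity : 0 < (u + t) ^ 2), mul_comm]
      exact mul_le_mul_of_nonneg_right (hFb t ht.1.le) (by positivity)
    · refine ContinuousOn.intervalIntegrable ?_
      refine ContinuousOn.mul continuousOn_const ?_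
      refine ContinuousOn.div continuousOn_const (by fun_prop) fun t ht => ?_
      have := hpos t ht
      positivity
  have h6 : |(u + b)⁻¹ * F b| ≤ (u + b)⁻¹ * (2 * S * δ) := by
    rw [abs_mul, abs_of_pos (inv_pos.2 hb)]
    exact mul_le_mul_of_nonneg_left (hFb b hab) (inv_pos.2 hb).le
  calc |(u + b)⁻¹ * F b - ∫ t in a..b, -1 / (u + t) ^ 2 * F t|
      ≤ |(u + b)⁻¹ * F b| + |∫ t in a..b, -1 / (u + t) ^ 2 * F t| := abs_sub _ _
    _ ≤ (u + b)⁻¹ * (2 * S * δ) + 2 * S * δ * ((u + a)⁻¹ - (u + b)⁻¹) := add_le_add h6 h4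
    _ = 2 * S * δ / (u + a) := by
      field_simp
      ring

end GS

/-! ## An abstract kernel -/

/-- the hypotheses on the kernel -/
structure KK (k : ℝ → ℝ) (L δ : ℝ) : Prop where
  L1 : 1 ≤ L
  kk_bd : ∀ τ, |k τ| ≤ 40
  kk_lip : ∀ τ τ', |k τ - k τ'| ≤ 20 * L * |τ - τ'|
  kk_wt : ∀ {c u a b : ℝ}, a ≤ b → 0 < u + a → 0 ≤ δ → |∫ t in a..b, k (c - t) / (u + t)| ≤ 20 * δ / (u + a)

open Classical in
/-- the kernel -/
noncomputable def TK (k : ℝ → ℝ) (ρ : ℝ) (q α m m' : ℕ) : ℝ :=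
  if jw ρ m = jw ρ m' ∧ m ≡ α [MOD q] ∧ m' ≡ α [MOD q] then k (Real.log m - Real.log m') else 0

lemma TK_bd {k : ℝ → ℝ} {L δ : ℝ} (h : KK k L δ) (ρ : ℝ) (q α m m' : ℕ) :
    |TK k ρ q α m m'| ≤ 40 := by
  unfold TK
  split_ifs
  · exact h.kk_bd _
  · rw [abs_zero]; norm_num

/-- the sum over all primes of the window -/
lemma inner_allK {k : ℝ → ℝ} {L δ ρ : ℝ} (h : KK k L δ) (hδ : 0 ≤ δ) (hρ : 1 < ρ)
    (hρ2 : ρ ≤ 2) {q α w y A d m₁ n : ℕ} {C : ℝ} (hC : 0 ≤ C) (hq : 1 ≤ q) (hqw : q ≤ w) (hw : 16 ≤ w)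
    (hPS : PSw q A w C) (hN : d * m₁ * n ∣ PP w y) (hm : m₁ ≠ 1) :
    |∑ p ∈ (Ioc w y).filter Nat.Prime, Real.log p / (p * Real.log ((n * p : ℕ) : ℝ)) *
      TK k ρ q α (d * m₁) (d * (n * p))| ≤
      40 * δ / Real.log m₁ + C * (80 + 20 * L) / Real.log w ^ A := by
  classical
  have hL1 := h.L1
  have hlw : 1 ≤ Real.log w := one_le_log hw
  have hdm : d * m₁ ∣ PP w y := (Dvd.intro _ rfl).trans hN
  have hd : d ∣ PP w y := (Dvd.intro _ rfl).trans hdm
  have hm1 : m₁ ∣ PP w y := (Dvd.intro_left _ rfl).trans hdm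
  have hn : n ∣ PP w y := (Dvd.intro_left _ rfl).trans hN
  have hdn : d * n ∣ PP w y := by
    refine Dvd.dvd.trans ?_ hN
    exact ⟨m₁, by ring⟩
  have hm1w : w < m₁ := D_gt hm1 hm
  have d0 := D_pos hd
  have n0 := D_pos hn
  have m0 := D_pos hm1
  have hlm : 0 < Real.log m₁ := Real.log_pos (by exact_mod_cast (by omega : 1 < m₁))
  have hbd0 : 0 ≤ 40 * δ / Real.log m₁ + C * (80 + 20 * L) / Real.log w ^ A := by
    have : 0 ≤ 80 + 20 * L := by linarith
    positivity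
  have hEq : Nat.Coprime (d * n) q := D_cop_q hdn hq hqw
  by_cases hc1 : d * m₁ ≡ α [MOD q]
  swap
  · rw [Finset.sum_eq_zero]
    · rw [abs_zero]; exact hbd0
    · intro p _
      unfold TK
      rw [if_neg (fun h => hc1 h.2.1), mul_zero]
  have hα : Nat.Coprime α q := by
    have h1 := D_cop_q hdm hq hqw
    have h2 := Nat.ModEq.gcd_eq hc1
    unfold Nat.Coprime at h1 ⊢
    rw [← h2]
    exact h1
  obtain ⟨β, hβ, hβp⟩ := class_ex hq hEq hα
  obtain ⟨N1, N2, w1, w2, w3, w4, w5⟩ := window (y := y) hρ hρ2 (D := d * m₁) (E := d * n)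
    (by omega : 1 ≤ w) (Nat.mul_pos d0 m0) (Nat.mul_pos d0 n0)
  have dR : (0 : ℝ) < d := by exact_mod_cast d0
  have nR : (0 : ℝ) < n := by exact_mod_cast n0
  have mR : (0 : ℝ) < m₁ := by exact_mod_cast m0
  have n1R : (1 : ℝ) ≤ n := by exact_mod_cast n0
  have hln : 0 ≤ Real.log n := Real.log_nonneg n1R
  obtain ⟨c, hc⟩ : ∃ c, c = Real.log m₁ - Real.log n := ⟨_, rfl⟩
  obtain ⟨Ψ, hΨ⟩ : ∃ Ψ : ℝ → ℝ, Ψ = fun t => k (c - t) / (Real.log n + t) := ⟨_, rfl⟩
  have hN1w : Real.log w ≤ Real.log N1 :=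
    Real.log_le_log (by exact_mod_cast (by omega : 0 < w)) (by exact_mod_cast w1)
  have N1R : (0 : ℝ) < N1 := by exact_mod_cast (by omega : 0 < N1)
  -- the sum
  have e1 : ∑ p ∈ (Ioc w y).filter Nat.Prime, Real.log p / (p * Real.log ((n * p : ℕ) : ℝ)) *
      TK k ρ q α (d * m₁) (d * (n * p)) =
      ∑ p ∈ (Ioc N1 N2).filter (fun p => p.Prime ∧ p ≡ β [MOD q]),
        Real.log p / p * Ψ (Real.log p) := by
    rw [Finset.sum_filter, Finset.sum_filter]
    have e2 : ∑ p ∈ Ioc w y, (if p.Prime then Real.log p / (p * Real.log ((n * p : ℕ) : ℝ)) *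
        TK k ρ q α (d * m₁) (d * (n * p)) else 0) =
        ∑ p ∈ (Ioc w y).filter (fun p => jw ρ (d * m₁) = jw ρ (d * n * p)),
          if p.Prime ∧ p ≡ β [MOD q] then Real.log p / p * Ψ (Real.log p) else 0 := by
      rw [Finset.sum_filter]
      refine Finset.sum_congr rfl fun p hp => ?_
      rw [mem_Ioc] at hp
      by_cases hpp : p.Prime
      · rw [if_pos hpp]
        unfold TK
        rw [← mul_assoc d n p]
        by_cases hj : jw ρ (d * m₁) = jw ρ (d * n * p)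
        · rw [if_pos hj]
          by_cases hb : p ≡ β [MOD q]
          · have hcond : jw ρ (d * m₁) = jw ρ (d * n * p) ∧ d * m₁ ≡ α [MOD q] ∧
                d * n * p ≡ α [MOD q] := ⟨hj, hc1, (hβp p).2 hb⟩
            rw [if_pos hcond, if_pos ⟨hpp, hb⟩, hΨ]
            have pR : (0 : ℝ) < p := by exact_mod_cast hpp.pos
            have l1 : Real.log ((d * m₁ : ℕ) : ℝ) - Real.log ((d * n * p : ℕ) : ℝ) =
                c - Real.log p := by
              push_cast
              rw [Real.log_mul dR.ne' mR.ne', Real.log_mul (by positivity) pR.ne',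
                Real.log_mul dR.ne' nR.ne', hc]
              ring
            have l2 : Real.log ((n * p : ℕ) : ℝ) = Real.log n + Real.log p := by
              push_cast
              rw [Real.log_mul nR.ne' pR.ne']
            rw [l1, l2]
            have l3 : 0 < Real.log n + Real.log p := by
              have : 0 < Real.log p := Real.log_pos (by exact_mod_cast hpp.one_lt)
              linarith
            field_simp
          · rw [if_neg (fun hh => hb ((hβp p).1 hh.2.2)), if_neg (fun hh => hb hh.2), mul_zero]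
        · rw [if_neg hj, if_neg (fun hh => hj hh.1), mul_zero]
      · rw [if_neg hpp]
        simp [hpp]
    rw [e2]
    refine Finset.sum_congr ?_ fun _ _ => rfl
    ext p
    rw [mem_filter, mem_Ioc, mem_Ioc, ← w5 p, and_assoc]
  rw [e1]
  -- PS
  have hden : ∀ s, Real.log N1 ≤ s → 1 ≤ Real.log n + s := fun s hs => by linarith
  have hps := hPS N1 N2 β w1 w2 w3 hβ Ψ 40 (20 * L + 40) (by linarith [h.L1]) (fun s hs _ => by
      have h1 := hden s hs
      rw [hΨ]
      simp only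
      rw [abs_div, abs_of_pos (by linarith : 0 < Real.log n + s)]
      rw [div_le_iff₀ (by linarith)]
      have := h.kk_bd (c - s)
      nlinarith) (fun s s' hs _ hs' _ => by
      have h1 := hden s hs
      have h2 := hden s' hs'
      rw [hΨ]
      simp only
      have h3 : k (c - s) / (Real.log n + s) - k (c - s') / (Real.log n + s') =
          (k (c - s) - k (c - s')) / (Real.log n + s) +
            k (c - s') * (s' - s) / ((Real.log n + s) * (Real.log n + s')) := by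
        have h4 : Real.log n + s ≠ 0 := by linarith
        have h5 : Real.log n + s' ≠ 0 := by linarith
        field_simp
        ring
      rw [h3]
      refine (abs_add_le _ _).trans ?_
      rw [abs_div, abs_div, abs_mul, abs_of_pos (by linarith : 0 < Real.log n + s),
        abs_of_pos (by nlinarith : 0 < (Real.log n + s) * (Real.log n + s'))]
      have h6 := h.kk_lip (c - s) (c - s')
      rw [show c - s - (c - s') = s' - s by ring] at h6
      have h7 := h.kk_bd (c - s')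
      have h8 : |s' - s| = |s - s'| := abs_sub_comm _ _
      rw [h8] at h6 ⊢
      have h9 : |k (c - s) - k (c - s')| / (Real.log n + s) ≤ 20 * L * |s - s'| :=
        (div_le_self (abs_nonneg _) h1).trans h6
      have h10 : |k (c - s')| * |s - s'| / ((Real.log n + s) * (Real.log n + s')) ≤
          40 * |s - s'| := by
        refine (div_le_self (by positivity) (by nlinarith)).trans ?_
        exact mul_le_mul_of_nonneg_right h7 (abs_nonneg _)
      linarith)
  have hlN : Real.log N1 ≤ Real.log N2 := Real.log_le_log N1R (by exact_mod_cast w2)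
  have hwt := h.kk_wt (c := c) (u := Real.log n) hlN (by linarith [hden _ le_rfl]) hδ
  have hlow : Real.log m₁ / 2 ≤ Real.log n + Real.log N1 := by
    have h1 : (m₁ : ℝ) ≤ 4 * (n * N1) := by
      have : (d : ℝ) * m₁ ≤ d * (4 * (n * N1)) := by
        push_cast at w4
        nlinarith
      exact le_of_mul_le_mul_left this dR
    have h2 : (16 : ℝ) ≤ m₁ := by exact_mod_cast (by omega : 16 ≤ m₁)
    rw [← Real.log_mul nR.ne' N1R.ne']
    have h3 : Real.log (m₁ : ℝ) ≤ Real.log (4 * (n * N1)) := Real.log_le_log mR h1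
    rw [Real.log_mul (by norm_num) (by positivity)] at h3
    have h4 : Real.log 16 ≤ Real.log m₁ := Real.log_le_log (by norm_num) h2
    have h5 : Real.log 16 = 2 * Real.log 4 := by
      rw [show (16 : ℝ) = 4 ^ 2 by norm_num, Real.log_pow]
      norm_num
    linarith
  have hint : |1 / (Nat.totient q : ℝ) * ∫ s in (Real.log N1)..(Real.log N2), Ψ s| ≤
      40 * δ / Real.log m₁ := by
    have hφ : (1 : ℝ) ≤ Nat.totient q := by exact_mod_cast Nat.totient_pos.2 (by omega)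
    rw [abs_mul, hΨ]
    have h1 : |1 / (Nat.totient q : ℝ)| ≤ 1 := by
      rw [abs_of_pos (by positivity), div_le_one (by linarith)]
      exact hφ
    have h2 : 20 * δ / (Real.log n + Real.log N1) ≤ 40 * δ / Real.log m₁ := by
      rw [div_le_div_iff₀ (by linarith) hlm]
      nlinarith
    calc |1 / (Nat.totient q : ℝ)| * |∫ s in (Real.log N1)..(Real.log N2), k (c - s) / (Real.log n + s)|
        ≤ 1 * (20 * δ / (Real.log n + Real.log N1)) :=
          mul_le_mul h1 hwt (abs_nonneg _) zero_le_one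
      _ ≤ 40 * δ / Real.log m₁ := by rw [one_mul]; exact h2
  have hps' : |∑ p ∈ (Ioc N1 N2).filter (fun p => p.Prime ∧ p ≡ β [MOD q]),
      Real.log p / p * Ψ (Real.log p) -
    (1 / (Nat.totient q : ℝ)) * ∫ s in (Real.log N1)..(Real.log N2), Ψ s| ≤
      C * (80 + 20 * L) / Real.log w ^ A := by
    refine hps.trans (le_of_eq ?_)
    ring
  have := abs_sub_abs_le_abs_sub (∑ p ∈ (Ioc N1 N2).filter (fun p => p.Prime ∧ p ≡ β [MOD q]),
      Real.log p / p * Ψ (Real.log p))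
    ((1 / (Nat.totient q : ℝ)) * ∫ s in (Real.log N1)..(Real.log N2), Ψ s)
  linarith

/-- the sum over the primes which do not divide `d m₁ n` -/
lemma inner_bdK {k : ℝ → ℝ} {L δ ρ : ℝ} (h : KK k L δ) (hδ : 0 ≤ δ) (hρ : 1 < ρ)
    (hρ2 : ρ ≤ 2) {q α w y A d m₁ n : ℕ} {C : ℝ} (hC : 0 ≤ C) (hq : 1 ≤ q) (hqw : q ≤ w) (hw : 16 ≤ w)
    (hPS : PSw q A w C) (hN : d * m₁ * n ∣ PP w y) (hm : m₁ ≠ 1) :
    |∑ p ∈ ((Ioc w y).filter Nat.Prime).filter (fun p => d * m₁ * n * p ∣ PP w y),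
      Real.log p / (p * Real.log ((n * p : ℕ) : ℝ)) * TK k ρ q α (d * m₁) (d * (n * p))| ≤
      40 * δ / Real.log m₁ + C * (80 + 20 * L) / Real.log w ^ A +
      40 / Real.log w * ∑ p ∈ ((Ioc w y).filter Nat.Prime).filter (fun p => p ∣ d * m₁ * n),
        Real.log p / p := by
  classical
  have h1 := inner_allK (α := α) h hδ hρ hρ2 hC hq hqw hw hPS hN hm
  have hlw : 1 ≤ Real.log w := one_le_log hw
  have hn : n ∣ PP w y := (Dvd.intro_left _ rfl).trans hN
  have n0 := D_pos hn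
  have e1 : ((Ioc w y).filter Nat.Prime).filter (fun p => d * m₁ * n * p ∣ PP w y) =
      ((Ioc w y).filter Nat.Prime).filter (fun p => ¬ p ∣ d * m₁ * n) := by
    refine Finset.filter_congr fun p hp => ?_
    rw [mem_filter, mem_Ioc] at hp
    constructor
    · intro h2 h3
      have h4 := D_cop h2
      exact hp.2.one_lt.ne' (Nat.Coprime.eq_one_of_dvd h4.symm h3)
    · intro h2
      refine D_mul hN (prime_D hp.2 hp.1.1 hp.1.2) ?_
      exact ((Nat.Prime.coprime_iff_not_dvd hp.2).2 h2).symm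
  rw [e1]
  have e2 := Finset.sum_filter_add_sum_filter_not ((Ioc w y).filter Nat.Prime)
    (fun p => p ∣ d * m₁ * n) (fun p => Real.log p / (p * Real.log ((n * p : ℕ) : ℝ)) *
      TK k ρ q α (d * m₁) (d * (n * p)))
  have e3 : |∑ p ∈ ((Ioc w y).filter Nat.Prime).filter (fun p => p ∣ d * m₁ * n),
      Real.log p / (p * Real.log ((n * p : ℕ) : ℝ)) * TK k ρ q α (d * m₁) (d * (n * p))| ≤
      40 / Real.log w * ∑ p ∈ ((Ioc w y).filter Nat.Prime).filter (fun p => p ∣ d * m₁ * n),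
        Real.log p / p := by
    refine (Finset.abs_sum_le_sum_abs _ _).trans ?_
    rw [Finset.mul_sum]
    refine Finset.sum_le_sum fun p hp => ?_
    rw [mem_filter, mem_filter, mem_Ioc] at hp
    have pR : (0 : ℝ) < p := by exact_mod_cast hp.1.2.pos
    have hlp : 0 ≤ Real.log p := Real.log_nonneg (by exact_mod_cast hp.1.2.one_lt.le)
    have hwp : Real.log w ≤ Real.log ((n * p : ℕ) : ℝ) := by
      refine Real.log_le_log (by exact_mod_cast (by omega : 0 < w)) ?_
      exact_mod_cast (by nlinarith [hp.1.1.1] : w ≤ n * p)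
    have hl0 : 0 < Real.log ((n * p : ℕ) : ℝ) := by linarith
    rw [abs_mul, abs_of_nonneg (by positivity)]
    have h2 := TK_bd h ρ q α (d * m₁) (d * (n * p))
    calc Real.log p / (p * Real.log ((n * p : ℕ) : ℝ)) * |TK k ρ q α (d * m₁) (d * (n * p))|
        ≤ Real.log p / (p * Real.log w) * 40 := by
          refine mul_le_mul ?_ h2 (abs_nonneg _) (by positivity)
          gcongr
      _ = 40 / Real.log w * (Real.log p / p) := by
          field_simp
  have e4 : ∑ p ∈ ((Ioc w y).filter Nat.Prime).filter (fun p => ¬ p ∣ d * m₁ * n),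
      Real.log p / (p * Real.log ((n * p : ℕ) : ℝ)) * TK k ρ q α (d * m₁) (d * (n * p)) =
      ∑ p ∈ (Ioc w y).filter Nat.Prime, Real.log p / (p * Real.log ((n * p : ℕ) : ℝ)) *
      TK k ρ q α (d * m₁) (d * (n * p)) -
      ∑ p ∈ ((Ioc w y).filter Nat.Prime).filter (fun p => p ∣ d * m₁ * n),
      Real.log p / (p * Real.log ((n * p : ℕ) : ℝ)) * TK k ρ q α (d * m₁) (d * (n * p)) := by
    linarith
  rw [e4]
  refine (abs_sub _ _).trans ?_
  linarith

/-- swap of the windows -/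
lemma windowsS {g : ℝ → ℝ} {L s0 S δ : ℝ} (h : GS g L s0 S δ) (ρ : ℝ) (q α M : ℕ) :
    ∑ j ∈ Wn ρ M, (1 / (Nat.totient M : ℝ)) *
      ∫ s : ℝ, (∑ m ∈ (Dv ρ M j).filter (fun m => m ≡ α [MOD q]), g (s - Real.log m)) ^ 2 =
    (1 / (Nat.totient M : ℝ)) * ∑ m ∈ M.divisors, ∑ m' ∈ M.divisors, TK (kk g) ρ q α m m' := by
  classical
  rw [← Finset.mul_sum]
  congr 1
  have h1 : ∀ m ∈ M.divisors, jw ρ m ∈ Wn ρ M := fun m hm => by
    unfold Wn
    exact mem_image_of_mem _ hm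
  rw [← Finset.sum_fiberwise_of_maps_to h1]
  refine Finset.sum_congr rfl fun j _ => ?_
  rw [h.sq_int, Finset.sum_filter]
  unfold Dv
  refine Finset.sum_congr rfl fun m hm => ?_
  rw [mem_filter] at hm
  unfold TK
  rw [hm.2, Finset.sum_filter, Finset.sum_filter]
  by_cases hα : m ≡ α [MOD q]
  · rw [if_pos hα]
    refine Finset.sum_congr rfl fun m' _ => ?_
    by_cases h2 : jw ρ m' = j
    · rw [if_pos h2]
      by_cases h3 : m' ≡ α [MOD q]
      · rw [if_pos h3, if_pos ⟨h2.symm, hα, h3⟩]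
      · rw [if_neg h3, if_neg fun h => h3 h.2.2]
    · rw [if_neg h2, if_neg fun h => h2 h.1.symm]
  · rw [if_neg hα]
    symm
    exact Finset.sum_eq_zero fun m' _ => if_neg fun h => hα h.2.1

/-- the row `m₁ = 1` -/
lemma row1K {k : ℝ → ℝ} {L δ ρ : ℝ} (h : KK k L δ) (hρ : 1 < ρ) (hρ2 : ρ ≤ 2)
    {q α w y d : ℕ} (hw : 16 ≤ w) (hd : d ∣ PP w y) :
    |∑ m₂ ∈ (PP w y).divisors, if d * 1 * m₂ ∣ PP w y then
      TK k ρ q α (d * 1) (d * m₂) / ((d * 1 * m₂ : ℕ) : ℝ) else 0| ≤ 40 * (1 / (d : ℝ)) := by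
  have h1 : (1 : ℕ) ∈ (PP w y).divisors := mD.2 (one_dvd _)
  have dR : (0 : ℝ) < d := by exact_mod_cast D_pos hd
  rw [Finset.sum_eq_single_of_mem 1 h1]
  · rw [mul_one, mul_one, if_pos hd, abs_div, abs_of_pos dR]
    have := TK_bd h ρ q α d d
    rw [div_le_iff₀ dR]
    calc |TK k ρ q α d d| ≤ 40 := this
      _ = 40 * (1 / (d : ℝ)) * d := by field_simp
  · intro m hm hm1
    rw [mD] at hm
    have h2 := D_gt hm hm1
    have h3 := jw_ne hρ hρ2 (D_pos hd) (by omega : 2 ≤ m)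
    have e : TK k ρ q α d (d * m) = 0 := by
      unfold TK
      exact if_neg fun hh => h3 hh.1
    rw [mul_one, e, zero_div, ite_self]

/-- the rows `m₁ ≠ 1` -/
lemma row2K {k : ℝ → ℝ} {L δ ρ : ℝ} (h : KK k L δ) (hδ : 0 ≤ δ) (hρ : 1 < ρ)
    (hρ2 : ρ ≤ 2) {q α w y A d m₁ : ℕ} {C : ℝ} (hC : 0 ≤ C) (hq : 1 ≤ q) (hqw : q ≤ w) (hw : 16 ≤ w)
    (hPS : PSw q A w C) (hd : d ∣ PP w y) (hm1 : m₁ ∣ PP w y) (hm : m₁ ≠ 1) :
    |∑ m₂ ∈ (PP w y).divisors, if d * m₁ * m₂ ∣ PP w y then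
      TK k ρ q α (d * m₁) (d * m₂) / ((d * m₁ * m₂ : ℕ) : ℝ) else 0| ≤
    ∑ n ∈ (PP w y).divisors, 1 / (d : ℝ) * (1 / (m₁ : ℝ)) * (1 / (n : ℝ)) *
      (40 * δ / Real.log m₁ + C * (80 + 20 * L) / Real.log w ^ A +
        40 / Real.log w * (RR w y d + RR w y m₁ + RR w y n)) := by
  classical
  have hL1 := h.L1
  have hlw : 1 ≤ Real.log w := one_le_log hw
  have dR : (0 : ℝ) < d := by exact_mod_cast D_pos hd
  have mR : (0 : ℝ) < m₁ := by exact_mod_cast D_pos hm1
  have hm1w : w < m₁ := D_gt hm1 hm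
  have hlm : 0 < Real.log m₁ := Real.log_pos (by exact_mod_cast (by omega : 1 < m₁))
  have hB : ∀ n : ℕ, 0 ≤ 40 * δ / Real.log m₁ + C * (80 + 20 * L) / Real.log w ^ A +
        40 / Real.log w * (RR w y d + RR w y m₁ + RR w y n) := by
    intro n
    have h1 : 0 ≤ 80 + 20 * L := by linarith
    have h2 := RR_nonneg w y d
    have h3 := RR_nonneg w y m₁
    have h4 := RR_nonneg w y n
    positivity
  rw [← Finset.sum_filter]
  have e1 : ∑ m ∈ (PP w y).divisors.filter (fun m => d * m₁ * m ∣ PP w y),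
      TK k ρ q α (d * m₁) (d * m) / ((d * m₁ * m : ℕ) : ℝ) =
      1 / (d : ℝ) * (1 / (m₁ : ℝ)) *
      ∑ m ∈ (PP w y).divisors.filter (fun m => d * m₁ * m ∣ PP w y), ∑ p ∈ m.primeFactors,
        Real.log p / (m * Real.log m) * TK k ρ q α (d * m₁) (d * m) := by
    rw [Finset.mul_sum]
    refine Finset.sum_congr rfl fun m hmm => ?_
    rw [mem_filter, mD] at hmm
    have mmR : (0 : ℝ) < m := by exact_mod_cast D_pos hmm.1
    by_cases h1 : m = 1
    · subst h1
      have h3 := jw_ne hρ hρ2 (D_pos hd) (by omega : 2 ≤ m₁)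
      unfold TK
      rw [if_neg (fun hh => h3 (by rw [mul_one] at hh; exact hh.1.symm))]
      simp
    · have h2 := D_gt hmm.1 h1
      have hlmm : 0 < Real.log m := Real.log_pos (by exact_mod_cast (by omega : 1 < m))
      rw [← Finset.sum_mul, ← Finset.sum_div, sum_log hmm.1]
      push_cast
      field_simp
  rw [e1, sum_prime (w := w) (y := y) (c := d * m₁)
    (fun m p => Real.log p / (m * Real.log m) * TK k ρ q α (d * m₁) (d * m)), abs_mul,
    abs_of_pos (by positivity : 0 < 1 / (d : ℝ) * (1 / (m₁ : ℝ)))]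
  have e2 : |∑ n ∈ (PP w y).divisors.filter (fun n => d * m₁ * n ∣ PP w y),
      ∑ p ∈ ((Ioc w y).filter Nat.Prime).filter (fun p => d * m₁ * n * p ∣ PP w y),
        Real.log p / (((n * p : ℕ) : ℝ) * Real.log ((n * p : ℕ) : ℝ)) *
          TK k ρ q α (d * m₁) (d * (n * p))| ≤
      ∑ n ∈ (PP w y).divisors, 1 / (n : ℝ) *
      (40 * δ / Real.log m₁ + C * (80 + 20 * L) / Real.log w ^ A +
        40 / Real.log w * (RR w y d + RR w y m₁ + RR w y n)) := by
    refine (Finset.abs_sum_le_sum_abs _ _).trans ?_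
    refine (Finset.sum_le_sum fun n hn => ?_).trans
      (Finset.sum_le_sum_of_subset_of_nonneg (Finset.filter_subset _ _) fun n _ _ =>
        mul_nonneg (by positivity) (hB n))
    rw [mem_filter, mD] at hn
    have nR : (0 : ℝ) < n := by exact_mod_cast D_pos hn.1
    have h1 := inner_bdK (α := α) h hδ hρ hρ2 hC hq hqw hw hPS hn.2 hm
    have h2 : ∑ p ∈ ((Ioc w y).filter Nat.Prime).filter (fun p => d * m₁ * n * p ∣ PP w y),
        Real.log p / (((n * p : ℕ) : ℝ) * Real.log ((n * p : ℕ) : ℝ)) *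
          TK k ρ q α (d * m₁) (d * (n * p)) =
        1 / (n : ℝ) * ∑ p ∈ ((Ioc w y).filter Nat.Prime).filter (fun p => d * m₁ * n * p ∣ PP w y),
        Real.log p / (p * Real.log ((n * p : ℕ) : ℝ)) * TK k ρ q α (d * m₁) (d * (n * p)) := by
      rw [Finset.mul_sum]
      refine Finset.sum_congr rfl fun p hp => ?_
      rw [mem_filter, mem_filter] at hp
      have pR : (0 : ℝ) < p := by exact_mod_cast hp.1.2.pos
      have e3 : ((n * p : ℕ) : ℝ) = n * p := by push_cast; rfl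
      have hl0 : Real.log ((n * p : ℕ) : ℝ) ≠ 0 := by
        have : 1 < n * p := by
          have := hp.1.2.one_lt
          have := D_pos hn.1
          nlinarith
        exact (Real.log_pos (by exact_mod_cast this)).ne'
      generalize Real.log ((n * p : ℕ) : ℝ) = z at hl0 ⊢
      rw [e3]
      field_simp
    rw [h2, abs_mul, abs_of_pos (by positivity : 0 < 1 / (n : ℝ))]
    refine mul_le_mul_of_nonneg_left (h1.trans ?_) (by positivity)
    have h3 := RR_mul w y d m₁ n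
    have h4 : 40 / Real.log w * RR w y (d * m₁ * n) ≤
        40 / Real.log w * (RR w y d + RR w y m₁ + RR w y n) :=
      mul_le_mul_of_nonneg_left h3 (by positivity)
    unfold RR at h4 ⊢
    linarith
  calc _ ≤ 1 / (d : ℝ) * (1 / (m₁ : ℝ)) * ∑ n ∈ (PP w y).divisors, 1 / (n : ℝ) *
      (40 * δ / Real.log m₁ + C * (80 + 20 * L) / Real.log w ^ A +
        40 / Real.log w * (RR w y d + RR w y m₁ + RR w y n)) :=
        mul_le_mul_of_nonneg_left e2 (by positivity)
    _ = _ := by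
      rw [Finset.mul_sum]
      refine Finset.sum_congr rfl fun n _ => ?_
      ring

/-- everything but the constants -/
lemma mainK {k : ℝ → ℝ} {L δ ρ : ℝ} (h : KK k L δ) (hδ : 0 ≤ δ) (hρ : 1 < ρ)
    (hρ2 : ρ ≤ 2) {q α w y A : ℕ} {C : ℝ} (hC : 0 ≤ C) (hq : 1 ≤ q) (hqw : q ≤ w) (hw : 16 ≤ w)
    (hwy : w ≤ y) (hPS : PSw q A w C) :
    VW w y ^ 2 * ∑ M ∈ (PP w y).divisors, (1 / (Nat.totient M : ℝ)) *
      ∑ m ∈ M.divisors, ∑ m' ∈ M.divisors, TK k ρ q α m m' ≤
    40 + (VW w y)⁻¹ * (40 * δ * ∑ m ∈ (PP w y).divisors.filter (fun m => m ≠ 1),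
        1 / ((m : ℝ) * Real.log m)) +
      (VW w y)⁻¹ ^ 2 * (C * (80 + 20 * L) / Real.log w ^ A) +
      3 * (40 / Real.log w) * (VW w y)⁻¹ * ((VW w y)⁻¹ * (Real.log y / w)) := by
  classical
  have hV := Pool.Agent.N99.QL.VW_pos w y
  have hL1 := h.L1
  have hlw : 1 ≤ Real.log w := one_le_log hw
  obtain ⟨E, hE⟩ : ∃ E, E = C * (80 + 20 * L) / Real.log w ^ A := ⟨_, rfl⟩
  obtain ⟨κ, hκ⟩ : ∃ κ, κ = 40 / Real.log w := ⟨_, rfl⟩
  have hE0 : 0 ≤ E := by
    rw [hE]
    have : 0 ≤ 80 + 20 * L := by linarith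
    positivity
  have hκ0 : 0 ≤ κ := by rw [hκ]; positivity
  obtain ⟨e, he⟩ : ∃ e : ℕ → ℝ, e = fun m : ℕ => if m = 1 then 0 else 40 * δ / Real.log m := ⟨_, rfl⟩
  have he0 : ∀ m, 0 ≤ e m := by
    intro m
    rw [he]
    simp only
    split_ifs
    · exact le_rfl
    · exact div_nonneg (by linarith) (Real.log_natCast_nonneg _)
  set D := (PP w y).divisors with hD
  -- the exact identity
  have s1 : VW w y ^ 2 * ∑ M ∈ D, (1 / (Nat.totient M : ℝ)) *
      ∑ m ∈ M.divisors, ∑ m' ∈ M.divisors, TK k ρ q α m m' =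
      VW w y * ∑ d ∈ D, ∑ m₁ ∈ D, ∑ m₂ ∈ D, (if d * m₁ * m₂ ∣ PP w y then
        TK k ρ q α (d * m₁) (d * m₂) / ((d * m₁ * m₂ : ℕ) : ℝ) else 0) := by
    rw [hD, swap,
      ← sum_pairs (w := w) (y := y) (fun m m' l => TK k ρ q α m m' / (l : ℝ)), Finset.mul_sum,
      Finset.mul_sum]
    refine Finset.sum_congr rfl fun m _ => ?_
    rw [Finset.mul_sum, Finset.mul_sum]
    refine Finset.sum_congr rfl fun m' _ => ?_
    field_simp
  -- the rows
  have s2 : ∀ d ∈ D, |∑ m₁ ∈ D, ∑ m₂ ∈ D, (if d * m₁ * m₂ ∣ PP w y then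
        TK k ρ q α (d * m₁) (d * m₂) / ((d * m₁ * m₂ : ℕ) : ℝ) else 0)| ≤
      40 * (1 / (d : ℝ)) + ∑ m ∈ D, ∑ n ∈ D, 1 / (d : ℝ) * (1 / (m : ℝ)) * (1 / (n : ℝ)) *
        (e m + E + κ * (RR w y d + RR w y m + RR w y n)) := by
    intro d hd
    rw [hD, mD] at hd
    have hnn : ∀ m n : ℕ, 0 ≤ 1 / (d : ℝ) * (1 / (m : ℝ)) * (1 / (n : ℝ)) *
        (e m + E + κ * (RR w y d + RR w y m + RR w y n)) := by
      intro m n
      have h2 := RR_nonneg w y d
      have h3 := RR_nonneg w y m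
      have h4 := RR_nonneg w y n
      have h5 := he0 m
      positivity
    have h1D : (1 : ℕ) ∈ D := mD.2 (one_dvd _)
    refine (Finset.abs_sum_le_sum_abs _ _).trans ?_
    rw [← Finset.add_sum_erase _ _ h1D]
    refine add_le_add (row1K h hρ hρ2 hw hd) ?_
    refine (Finset.sum_le_sum fun m hm => ?_).trans
      (Finset.sum_le_sum_of_subset_of_nonneg (Finset.erase_subset _ _) fun m _ _ =>
        Finset.sum_nonneg fun n _ => hnn m n)
    rw [mem_erase, hD, mD] at hm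
    have h3 := row2K (α := α) h hδ hρ hρ2 hC hq hqw hw hPS hd hm.2 hm.1
    rw [← hE, ← hκ] at h3
    have h4 : e m = 40 * δ / Real.log m := by
      rw [he]
      simp only
      rw [if_neg hm.1]
    rw [h4]
    exact h3
  have s3 : |∑ d ∈ D, ∑ m₁ ∈ D, ∑ m₂ ∈ D, (if d * m₁ * m₂ ∣ PP w y then
        TK k ρ q α (d * m₁) (d * m₂) / ((d * m₁ * m₂ : ℕ) : ℝ) else 0)| ≤
      40 * (∑ d ∈ D, 1 / (d : ℝ)) +
        ((∑ d ∈ D, 1 / (d : ℝ)) ^ 2 * (∑ d ∈ D, 1 / (d : ℝ) * e d) +
        (∑ d ∈ D, 1 / (d : ℝ)) ^ 3 * E +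
        3 * κ * (∑ d ∈ D, 1 / (d : ℝ)) ^ 2 * ∑ d ∈ D, 1 / (d : ℝ) * RR w y d) := by
    refine (Finset.abs_sum_le_sum_abs _ _).trans ((Finset.sum_le_sum s2).trans ?_)
    rw [Finset.sum_add_distrib, ← Finset.mul_sum,
      triple D (fun d => 1 / (d : ℝ)) e (RR w y) E κ]
  obtain ⟨V1, hV1⟩ : ∃ V1, V1 = ∑ d ∈ D, 1 / (d : ℝ) := ⟨_, rfl⟩
  obtain ⟨Q, hQ⟩ : ∃ Q, Q = ∑ d ∈ D, 1 / (d : ℝ) * e d := ⟨_, rfl⟩
  obtain ⟨X, hX⟩ : ∃ X, X = ∑ d ∈ D, 1 / (d : ℝ) * RR w y d := ⟨_, rfl⟩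
  have hV10 : 0 ≤ V1 := by rw [hV1]; exact Finset.sum_nonneg fun d _ => by positivity
  have hQ0 : 0 ≤ Q := by
    rw [hQ]
    exact Finset.sum_nonneg fun d _ => mul_nonneg (by positivity) (he0 d)
  have hX0 : 0 ≤ X := by
    rw [hX]
    exact Finset.sum_nonneg fun d _ => mul_nonneg (by positivity) (RR_nonneg _ _ _)
  have hU : V1 ≤ (VW w y)⁻¹ := by rw [hV1]; exact sum_inv w y
  have hXb : X ≤ (VW w y)⁻¹ * (Real.log y / w) := by rw [hX]; exact RR_mean (by omega) hwy
  have hQe : Q = 40 * δ * ∑ m ∈ D.filter (fun m => m ≠ 1), 1 / ((m : ℝ) * Real.log m) := by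
    rw [hQ, Finset.mul_sum, Finset.sum_filter]
    refine Finset.sum_congr rfl fun m hm => ?_
    rw [hD, mD] at hm
    rw [he]
    simp only
    by_cases h1 : m = 1
    · rw [if_pos h1, if_neg (by simpa using h1), mul_zero]
    · rw [if_neg h1, if_pos h1]
      have h2 := D_gt hm h1
      have hlmm : 0 < Real.log m := Real.log_pos (by exact_mod_cast (by omega : 1 < m))
      have mmR : (0 : ℝ) < m := by exact_mod_cast D_pos hm
      field_simp
  rw [← hV1, ← hQ, ← hX] at s3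
  rw [s1, ← hQe, ← hE, ← hκ]
  have hVV : VW w y * V1 ≤ 1 := by
    calc VW w y * V1 ≤ VW w y * (VW w y)⁻¹ := mul_le_mul_of_nonneg_left hU hV.le
      _ = 1 := mul_inv_cancel₀ hV.ne'
  have hVV0 : 0 ≤ VW w y * V1 := mul_nonneg hV.le hV10
  have hUp : 0 < (VW w y)⁻¹ := inv_pos.2 hV
  have t1 : VW w y * (V1 ^ 2 * Q) ≤ (VW w y)⁻¹ * Q := by
    calc VW w y * (V1 ^ 2 * Q) = (VW w y * V1) * (V1 * Q) := by ring
      _ ≤ 1 * ((VW w y)⁻¹ * Q) := by gcongr
      _ = (VW w y)⁻¹ * Q := one_mul _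
  have t2 : VW w y * (V1 ^ 3 * E) ≤ (VW w y)⁻¹ ^ 2 * E := by
    calc VW w y * (V1 ^ 3 * E) = (VW w y * V1) * (V1 ^ 2 * E) := by ring
      _ ≤ 1 * ((VW w y)⁻¹ ^ 2 * E) := by gcongr
      _ = (VW w y)⁻¹ ^ 2 * E := one_mul _
  have t3 : VW w y * (3 * κ * V1 ^ 2 * X) ≤
      3 * κ * (VW w y)⁻¹ * ((VW w y)⁻¹ * (Real.log y / w)) := by
    calc VW w y * (3 * κ * V1 ^ 2 * X) = (VW w y * V1) * (3 * κ * V1 * X) := by ring
      _ ≤ 1 * (3 * κ * (VW w y)⁻¹ * ((VW w y)⁻¹ * (Real.log y / w))) := by gcongr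
      _ = 3 * κ * (VW w y)⁻¹ * ((VW w y)⁻¹ * (Real.log y / w)) := one_mul _
  calc VW w y * ∑ d ∈ D, ∑ m₁ ∈ D, ∑ m₂ ∈ D, (if d * m₁ * m₂ ∣ PP w y then
        TK k ρ q α (d * m₁) (d * m₂) / ((d * m₁ * m₂ : ℕ) : ℝ) else 0)
      ≤ VW w y * (40 * V1 + (V1 ^ 2 * Q + V1 ^ 3 * E + 3 * κ * V1 ^ 2 * X)) :=
        mul_le_mul_of_nonneg_left ((le_abs_self _).trans s3) hV.le
    _ = 40 * (VW w y * V1) + VW w y * (V1 ^ 2 * Q) + VW w y * (V1 ^ 3 * E) +
        VW w y * (3 * κ * V1 ^ 2 * X) := by ring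
    _ ≤ 40 + (VW w y)⁻¹ * Q + (VW w y)⁻¹ ^ 2 * E +
        3 * κ * (VW w y)⁻¹ * ((VW w y)⁻¹ * (Real.log y / w)) := by linarith


/-- QB. -/
theorem t_QB (h1 : S_QBA) (h2 : S_PS) (h3 : S_MER) : Pool.Agent.N728.QG.S_QB := by
  intro q K S0 hq
  obtain ⟨C1, hC1, h1⟩ := h1
  obtain ⟨C2, hC2, w0, hw0, h2⟩ := h2 q (3 * K) hq
  obtain ⟨C3, hC3, h3, -⟩ := h3
  obtain ⟨w1, hw1⟩ := log_pow_le (3 * K)
  obtain ⟨κ, hκ⟩ : ∃ κ : ℝ, κ = ((S0 : ℝ) + 1) / 10 := ⟨_, rfl⟩
  have hκ0 : 0 < κ := by rw [hκ]; positivity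
  refine ⟨κ * (40 + 40 * C1 * C3 + 100 * C2 * C3 ^ 2 + 120 * C3 ^ 2), by positivity,
    w0 + w1 + q + 16, fun w y hw hwy hyK L s0 ρ g α hL1 hLK hρ hρ2 hg1 hg2 hg3 hg4 => ?_⟩
  have hlw : 1 ≤ Real.log w := one_le_log (by omega)
  have hwR : (0 : ℝ) < w := by exact_mod_cast (by omega : 0 < w)
  have hlyw : Real.log w ≤ Real.log y := Real.log_le_log hwR (by exact_mod_cast hwy)
  have hly : 1 ≤ Real.log y := hlw.trans hlyw
  have hlly : 0 ≤ Real.log (Real.log y) := Real.log_nonneg hly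
  have hG : GS g L s0 ((S0 : ℝ) + 1) (1 / Real.log y) :=
    ⟨by positivity, hL1, hg1, hg2, fun s hs => hg3 s (fun h => hs ⟨h.1, by linarith [h.2]⟩), hg4⟩
  have hS : 10 * κ = (S0 : ℝ) + 1 := by rw [hκ]; ring
  rw [← hS] at hG
  have hK : KK (fun τ => kk g τ / κ) L (1 / Real.log y) := by
    refine ⟨hL1, fun τ => ?_, fun τ τ' => ?_, fun {c u a b} hab hu hδ => ?_⟩
    · rw [abs_div, abs_of_pos hκ0, div_le_iff₀ hκ0]
      linarith [hG.kk_bd τ]
    · rw [← sub_div, abs_div, abs_of_pos hκ0, div_le_iff₀ hκ0]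
      refine (hG.kk_lip τ τ').trans (le_of_eq ?_)
      ring
    · have e : ∀ t, kk g (c - t) / κ / (u + t) = kk g (c - t) / (u + t) / κ := fun t => by
        rw [div_right_comm]
      simp_rw [e]
      rw [intervalIntegral.integral_div, abs_div, abs_of_pos hκ0, div_le_iff₀ hκ0]
      refine (hG.kk_wt hab hu hδ).trans (le_of_eq ?_)
      ring
  have e0 : ∀ M, ∑ j ∈ Wn ρ M, (1 / (Nat.totient M : ℝ)) *
      ∫ s : ℝ, (∑ m ∈ (Dv ρ M j).filter (fun m => m ≡ α [MOD q]), g (s - Real.log m)) ^ 2 =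
      κ * ((1 / (Nat.totient M : ℝ)) * ∑ m ∈ M.divisors, ∑ m' ∈ M.divisors,
        TK (fun τ => kk g τ / κ) ρ q α m m') := by
    intro M
    rw [windowsS hG ρ q α M, mul_left_comm]
    congr 1
    rw [Finset.mul_sum]
    refine Finset.sum_congr rfl fun m _ => ?_
    rw [Finset.mul_sum]
    refine Finset.sum_congr rfl fun m' _ => ?_
    unfold TK
    split_ifs
    · field_simp
    · rw [mul_zero]
  simp_rw [e0]
  rw [← Finset.mul_sum, mul_left_comm, mul_assoc κ]
  refine mul_le_mul_of_nonneg_left ?_ hκ0.le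
  have hm := mainK (α := α) (q := q) (A := 3 * K) hK (by positivity) hρ hρ2 hC2.le hq (by omega)
    (by omega : 16 ≤ w) hwy (fun N1 N2 β => h2 w N1 N2 β (by omega))
  refine hm.trans ?_
  have hQ := h1 w y (by omega) hwy (by omega)
  have hM := (h3 w y (by omega) hwy).2
  have hU : 0 < (VW w y)⁻¹ := inv_pos.2 (Pool.Agent.N99.QL.VW_pos w y)
  set U := (VW w y)⁻¹ with hUd
  set l := Real.log w with hl
  set z := Real.log y with hz
  have l0 : 0 < l := by linarith
  have z0 : 0 < z := by linarith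
  have hUz : U ≤ C3 * z := hM.trans (mul_le_mul_of_nonneg_left (div_le_self z0.le hlw) (by linarith))
  have hC3' : 0 < C3 := by linarith
  -- first
  have a1 : U * (40 * (1 / z) * ∑ m ∈ (PP w y).divisors.filter (fun m => m ≠ 1),
        1 / ((m : ℝ) * Real.log m)) ≤ 40 * C1 * C3 * (1 + Real.log z) := by
    calc U * (40 * (1 / z) * ∑ m ∈ (PP w y).divisors.filter (fun m => m ≠ 1),
        1 / ((m : ℝ) * Real.log m)) ≤ (C3 * z) * (40 * (1 / z) * (C1 * (1 + Real.log z) / l)) := by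
          have : 0 ≤ ∑ m ∈ (PP w y).divisors.filter (fun m => m ≠ 1),
              1 / ((m : ℝ) * Real.log m) := Finset.sum_nonneg fun m _ => by
            have := Real.log_natCast_nonneg m
            positivity
          gcongr
      _ = 40 * C1 * C3 * (1 + Real.log z) / l := by field_simp
      _ ≤ 40 * C1 * C3 * (1 + Real.log z) := div_le_self (by positivity) hlw
  -- second
  have a2 : U ^ 2 * (C2 * (80 + 20 * L) / l ^ (3 * K)) ≤ 100 * C2 * C3 ^ 2 := by
    have b1 : z ≤ l ^ K := hyK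
    calc U ^ 2 * (C2 * (80 + 20 * L) / l ^ (3 * K))
        ≤ (C3 * l ^ K) ^ 2 * (C2 * (100 * l ^ K) / l ^ (3 * K)) := by
          have c1 : U ≤ C3 * l ^ K := hUz.trans (mul_le_mul_of_nonneg_left b1 hC3'.le)
          have c2 : 80 + 20 * L ≤ 100 * l ^ K := by linarith
          gcongr
      _ = 100 * C2 * C3 ^ 2 := by
          have : l ^ (3 * K) = l ^ K * l ^ K * l ^ K := by ring
          rw [this]
          have c3 : l ^ K ≠ 0 := by positivity
          field_simp
  -- third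
  have a3 : 3 * (40 / l) * U * (U * (z / w)) ≤ 120 * C3 ^ 2 := by
    have b1 : z ≤ l ^ K := hyK
    have b2 : 40 / l ≤ 40 := div_le_self (by norm_num) hlw
    have b3 : l ^ (3 * K) ≤ w := hw1 w (by omega)
    have b4 : z ^ 3 ≤ w := by
      refine le_trans ?_ b3
      rw [mul_comm, pow_mul]
      exact pow_le_pow_left₀ z0.le b1 3
    calc 3 * (40 / l) * U * (U * (z / w)) ≤ 3 * 40 * (C3 * z) * ((C3 * z) * (z / w)) := by
          gcongr
      _ = 120 * C3 ^ 2 * (z ^ 3 / w) := by ring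
      _ ≤ 120 * C3 ^ 2 * 1 := by
          have : z ^ 3 / w ≤ 1 := by
            rw [div_le_one hwR]
            exact b4
          gcongr
      _ = 120 * C3 ^ 2 := mul_one _
  have a4 : (0 : ℝ) ≤ (40 + 100 * C2 * C3 ^ 2 + 120 * C3 ^ 2) * Real.log z := by positivity
  nlinarith


end Pool.Agent.N769.QG
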