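import Pool.Agent.N728.QG.Def
import Pool.Agent.N558.QL.SM

/-!
QG/SM: additive and multiplicative smoothing of a step function with general support.
The proof is that of `Pool.Agent.N558.QL.t_SM` (helper558) with other constants.
-/

set_option linter.all false

open MeasureTheory intervalIntegral Set

namespace Pool.Agent.N769.QG

open Pool.Agent.N728.QL
open Pool.Agent.N558.QL (g0_meas ii_of_bdd abs_int_le avg avg_le avg_lip avg_zero avg_const cav
  cav_int)

theorem t_SM : Pool.Agent.N728.QG.S_SM := by
  intro K hK
  have hK' : (4 : ℝ) ≤ K := by exact_mod_cast hK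
  have hKpos : (0 : ℝ) < K := by linarith
  refine ⟨2 * K + 8, by linarith, ?_⟩
  intro B H δ ℓ σ G0 hB hH hHB hδ hδ2 hℓ hG0 hcell hsupp
  have hB0 : (0 : ℝ) < B := by linarith
  have hm : Measurable G0 := g0_meas hH hcell
  set d : ℝ := δ * H with hd
  have hd0 : 0 < d := by positivity
  have hdB : d ≤ B / 20 := by
    calc d = δ * H := rfl
      _ ≤ 1 / 2 * H := by gcongr
      _ ≤ B / 20 := by linarith
  have hℓ0 : 0 < ℓ := by linarith
  -- the first smoothing
  set G1 : ℝ → ℝ := avg G0 d with hG1
  have hG1b : ∀ v, |G1 v| ≤ 1 := avg_le hd0 hG0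
  have hG1l : ∀ v v', |G1 v - G1 v'| ≤ 2 / d * |v - v'| := avg_lip hd0 hm hG0
  have hG1z1 : ∀ v, v < 17 / 60 * B → G1 v = 0 := by
    intro v hv
    apply avg_zero hd0
    intro x h1 h2
    apply hsupp
    rintro ⟨h3, h4⟩
    linarith
  have hG1z2 : ∀ v, K * B / 2 ≤ v → G1 v = 0 := by
    intro v hv
    apply avg_zero hd0
    intro x h1 h2
    apply hsupp
    rintro ⟨h3, h4⟩
    linarith
  -- logarithmic coordinate
  set F : ℝ → ℝ := fun s => G1 (Real.exp s) with hF
  have hFb : ∀ s, |F s| ≤ 1 := fun s => hG1b _
  have hFmin : ∀ s, F s = G1 (Real.exp (min s (Real.log (K * B)))) := by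
    intro s
    rcases le_total s (Real.log (K * B)) with h | h
    · rw [min_eq_left h]
    · rw [min_eq_right h, Real.exp_log (by positivity)]
      have h1 : K * B ≤ Real.exp s := by
        rw [← Real.exp_log (by positivity : 0 < K * B)]
        exact Real.exp_le_exp.mpr h
      rw [hG1z2 (K * B) (by nlinarith)]
      exact hG1z2 _ (by nlinarith)
  have hexp : ∀ s s', s ≤ s' → s' ≤ Real.log (K * B) →
      |Real.exp s - Real.exp s'| ≤ K * B * |s - s'| := by
    intro s s' h1 h2
    rw [abs_sub_comm, abs_of_nonneg (by linarith [Real.exp_le_exp.mpr h1]), abs_sub_comm,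
      abs_of_nonneg (by linarith : 0 ≤ s' - s)]
    have h3 : Real.exp s' ≤ K * B := by
      rw [← Real.exp_log (by positivity : 0 < K * B)]
      exact Real.exp_le_exp.mpr h2
    have h4 : Real.exp s' - Real.exp s = Real.exp s' * (1 - Real.exp (s - s')) := by
      rw [mul_sub, ← Real.exp_add]; ring_nf
    rw [h4]
    have h5 : s - s' + 1 ≤ Real.exp (s - s') := Real.add_one_le_exp _
    have h6 : 0 < Real.exp s' := Real.exp_pos _
    calc Real.exp s' * (1 - Real.exp (s - s')) ≤ Real.exp s' * (s' - s) := by
          apply mul_le_mul_of_nonneg_left _ h6.le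
          linarith
      _ ≤ K * B * (s' - s) := by
          apply mul_le_mul_of_nonneg_right h3
          linarith
  have hFl : ∀ s s', |F s - F s'| ≤ 2 * K * B / d * |s - s'| := by
    have key : ∀ s s', s ≤ s' → |F s - F s'| ≤ 2 * K * B / d * |s - s'| := by
      intro s s' h
      rw [hFmin s, hFmin s']
      refine (hG1l _ _).trans ?_
      have h1 := hexp (min s (Real.log (K * B))) (min s' (Real.log (K * B)))
        (min_le_min_right _ h) (min_le_right _ _)
      have h2 : |min s (Real.log (K * B)) - min s' (Real.log (K * B))| ≤ |s - s'| :=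
        abs_min_sub_min_le_max _ _ _ _ |>.trans (by simp)
      calc 2 / d * |Real.exp (min s (Real.log (K * B))) - Real.exp (min s' (Real.log (K * B)))|
          ≤ 2 / d * (K * B * |s - s'|) := by
            gcongr
            exact h1.trans (by gcongr)
        _ = 2 * K * B / d * |s - s'| := by ring
    intro s s'
    rcases le_total s s' with h | h
    · exact key s s' h
    · rw [abs_sub_comm (F s), abs_sub_comm s]
      exact key s' s h
  have hFc : Continuous F := by
    rw [Metric.continuous_iff]
    intro b ε hε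
    refine ⟨ε / (2 * K * B / d + 1), by positivity, ?_⟩
    intro a ha
    rw [Real.dist_eq] at ha ⊢
    refine lt_of_le_of_lt (hFl a b) ?_
    have hp : 0 < 2 * K * B / d := by positivity
    calc 2 * K * B / d * |a - b| ≤ (2 * K * B / d + 1) * |a - b| := by
          apply mul_le_mul_of_nonneg_right _ (abs_nonneg _)
          linarith
      _ < (2 * K * B / d + 1) * (ε / (2 * K * B / d + 1)) := by
          apply mul_lt_mul_of_pos_left ha
          positivity
      _ = ε := by field_simp
  have hFz1 : ∀ s, s < Real.log (17 / 60 * B) → F s = 0 := by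
    intro s hs
    apply hG1z1
    rw [← Real.exp_log (by positivity : 0 < 17 / 60 * B)]
    exact Real.exp_lt_exp.mpr hs
  have hFz2 : ∀ s, Real.log (K * B / 2) ≤ s → F s = 0 := by
    intro s hs
    apply hG1z2
    rw [← Real.exp_log (by positivity : 0 < K * B / 2)]
    exact Real.exp_le_exp.mpr hs
  -- the second smoothing
  have hh0 : 0 < 1 / ℓ := by positivity
  have hh1 : 1 / ℓ ≤ 1 / 10 := by
    apply one_div_le_one_div_of_le (by norm_num) hℓ
  set A : ℝ → ℝ := cav F (1 / ℓ) with hA
  have hAb : ∀ s, |A s| ≤ 1 := fun s => avg_le hh0 hFb _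
  have hAl : ∀ s s', |A s - A s'| ≤ 2 * ℓ * |s - s'| := by
    intro s s'
    have := avg_lip hh0 hFc.measurable hFb (s - 1 / ℓ / 2) (s' - 1 / ℓ / 2)
    rw [show s - 1 / ℓ / 2 - (s' - 1 / ℓ / 2) = s - s' by ring,
      show 2 / (1 / ℓ) = 2 * ℓ by field_simp] at this
    exact this
  have hlog1 : Real.log (B / 4) + 1 / 20 < Real.log (17 / 60 * B) := by
    have e : 17 / 60 * B = B / 4 * (17 / 15) := by ring
    rw [e, Real.log_mul (by positivity) (by norm_num)]
    have : (1 : ℝ) / 20 < Real.log (17 / 15) := by
      rw [Real.lt_log_iff_exp_lt (by norm_num)]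
      have h7 := Real.exp_bound_div_one_sub_of_interval' (x := 1 / 20) (by norm_num) (by norm_num)
      refine h7.trans_le ?_
      norm_num
    linarith
  have hlog2 : Real.log (K * B / 2) + 1 / 20 ≤ Real.log (K * B) := by
    have e : K * B = K * B / 2 * 2 := by ring
    rw [show Real.log (K * B) = Real.log (K * B / 2 * 2) by rw [← e], Real.log_mul (x := K * B / 2) (y := 2) (by positivity) (by norm_num)]
    have : (1 : ℝ) / 20 < Real.log 2 := by
      rw [Real.lt_log_iff_exp_lt (by norm_num)]
      have h7 := Real.exp_bound_div_one_sub_of_interval' (x := 1 / 20) (by norm_num) (by norm_num)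
      refine h7.trans_le ?_
      norm_num
    linarith
  have hAz1 : ∀ s, s ≤ Real.log (B / 4) → A s = 0 := by
    intro s hs
    apply avg_zero hh0
    intro x h1 h2
    apply hFz1
    linarith
  have hAz2 : ∀ s, Real.log (K * B) ≤ s → A s = 0 := by
    intro s hs
    apply avg_zero hh0
    intro x h1 h2
    apply hFz2
    linarith
  have hGA : ∀ v, 0 < v → A (Real.log (max v (B / 4))) = A (Real.log v) := by
    intro v hv
    rcases le_total (B / 4) v with h | h
    · rw [max_eq_left h]
    · rw [max_eq_right h, hAz1 _ le_rfl, hAz1 _ (Real.log_le_log hv h)]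
  refine ⟨fun s => F s - A s, fun v => A (Real.log (max v (B / 4))), ?_, ?_, ?_, ?_, ?_, ?_, ?_, ?_⟩
  · intro s
    have h1 := hFb s
    have h2 := hAb s
    have h3 := abs_sub (F s) (A s)
    simp only
    linarith
  · intro s s'
    have h1 := hFl s s'
    have h2 := hAl s s'
    have h3 : |F s - A s - (F s' - A s')| ≤ |F s - F s'| + |A s - A s'| := by
      rw [show F s - A s - (F s' - A s') = (F s - F s') - (A s - A s') by ring]
      exact abs_sub _ _
    simp only
    have h4 : 0 ≤ |s - s'| := abs_nonneg _
    have h5 : (2 * K + 8) * (B / d + ℓ) * |s - s'| = 2 * K * B / d * |s - s'| +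
        (8 * (B / d) + (2 * K + 8) * ℓ) * |s - s'| := by ring
    rw [h5]
    have h6 : 0 ≤ B / d := by positivity
    have h7 : 2 * ℓ * |s - s'| ≤ (8 * (B / d) + (2 * K + 8) * ℓ) * |s - s'| := by
      apply mul_le_mul_of_nonneg_right _ h4
      nlinarith
    linarith
  · intro s hs
    simp only
    rw [not_and_or, not_le, not_le] at hs
    rcases hs with h | h
    · rw [hFz1 s (by linarith), hAz1 s h.le, sub_zero]
    · rw [hFz2 s (by linarith), hAz2 s h.le, sub_zero]
  · intro s1 s2 _
    exact cav_int hh0 hFc hFb s1 s2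
  · intro v
    exact hAb _
  · intro v v'
    refine (hAl _ _).trans ?_
    have key : ∀ x y : ℝ, B / 4 ≤ x → x ≤ y → Real.log y - Real.log x ≤ (y - x) / (B / 4) := by
      intro x y hx hxy
      have hx0 : 0 < x := by linarith
      rw [← Real.log_div (by linarith) (by linarith)]
      have hy0 : 0 < y := by linarith
      refine (Real.log_le_sub_one_of_pos (by positivity)).trans ?_
      rw [show y / x - 1 = (y - x) / x by field_simp]
      apply div_le_div_of_nonneg_left _ (by positivity) hx
      linarith
    have key2 : |Real.log (max v (B / 4)) - Real.log (max v' (B / 4))|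
        ≤ |max v (B / 4) - max v' (B / 4)| / (B / 4) := by
      rcases le_total (max v (B / 4)) (max v' (B / 4)) with h | h
      · rw [abs_sub_comm, abs_of_nonneg (sub_nonneg.mpr (Real.log_le_log (by
          refine lt_of_lt_of_le ?_ (le_max_right _ _)
          positivity) h)), abs_sub_comm, abs_of_nonneg (sub_nonneg.mpr h)]
        exact key _ _ (le_max_right _ _) h
      · rw [abs_of_nonneg (sub_nonneg.mpr (Real.log_le_log (by
          refine lt_of_lt_of_le ?_ (le_max_right _ _)
          positivity) h)), abs_of_nonneg (sub_nonneg.mpr h)]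
        exact key _ _ (le_max_right _ _) h
    have key3 : |max v (B / 4) - max v' (B / 4)| ≤ |v - v'| :=
      abs_max_sub_max_le_max _ _ _ _ |>.trans (by simp)
    calc 2 * ℓ * |Real.log (max v (B / 4)) - Real.log (max v' (B / 4))|
        ≤ 2 * ℓ * (|v - v'| / (B / 4)) := by
          gcongr
          exact key2.trans (by gcongr)
      _ = 8 * ℓ * |v - v'| / B := by field_simp; ring
      _ ≤ (2 * K + 8) * ℓ * |v - v'| / B := by
          gcongr
          linarith
  · intro v hv
    simp only
    rw [hGA v hv]
    simp only [add_sub_cancel]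
    exact hFb _
  · intro v hv hk
    simp only
    rw [hGA v hv]
    simp only [add_sub_cancel]
    have h1 : F (Real.log v) = G1 v := by
      simp only [hF]
      rw [Real.exp_log hv]
    rw [h1]
    symm
    apply avg_const hd0
    intro x hx1 hx2
    apply hcell
    -- same cell
    set k : ℤ := ⌊(v - σ) / H⌋ with hkdef
    rw [Int.floor_eq_iff]
    have hk1 : (k : ℝ) ≤ (v - σ) / H := Int.floor_le _
    have hk2 : (v - σ) / H < k + 1 := Int.lt_floor_add_one _
    rw [le_div_iff₀ hH] at hk1
    rw [div_lt_iff₀ hH] at hk2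
    have hk3 := hk (k + 1)
    push_cast at hk3
    rw [abs_sub_comm, show (((k : ℝ) + 1) * H) - (v - σ) = (k + 1) * H - (v - σ) from rfl,
      abs_of_nonneg (by linarith)] at hk3
    constructor
    · rw [le_div_iff₀ hH]
      linarith
    · rw [div_lt_iff₀ hH]
      linarith

end Pool.Agent.N769.QG
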